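import Mathlib

namespace Pool.Agent.Results.MP_fd91d0_co.Dim

open Finset

theorem dis (a b c d : ZMod 17) (k : a ∉ ({b, c, d} : Finset _) ∧ b ∉ ({c, d} : Finset _) ∧ c ≠ d ∧
    ∀ p q r s p' q' r' s' : Bool, (if p then a else 0) + ((if q then b else 0) + ((if r then c else 0) +
      if s then d else 0)) = (if p' then a else 0) + ((if q' then b else 0) + ((if r' then c else 0) +
      if s' then d else 0)) → p = p' ∧ q = q' ∧ r = r' ∧ s = s') :
    AddDissociated (({a, b, c, d} : Finset (ZMod 17)) : Set (ZMod 17)) := by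
  obtain ⟨k1, k2, k3, k⟩ := k
  have e : ∀ s : Finset (ZMod 17), (s : Set (ZMod 17)) ⊆ ({a, b, c, d} : Finset (ZMod 17)) →
      ∑ x ∈ s, x = ∑ x ∈ ({a, b, c, d} : Finset _), if x ∈ s then x else 0 := fun s hs => by
    rw [sum_ite_mem, inter_eq_right.2 (coe_subset.1 hs)]
  intro s hs t ht h
  have h' : ∑ x ∈ s, x = ∑ x ∈ t, x := h
  rw [e s hs, e t ht] at h'
  simp only [sum_insert k1, sum_insert k2, sum_pair k3] at h'
  have := k (a ∈ s) (b ∈ s) (c ∈ s) (d ∈ s) (a ∈ t) (b ∈ t) (c ∈ t) (d ∈ t) (by simpa using h')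
  simp only [decide_eq_decide] at this
  ext x
  by_cases hx : x ∈ ({a, b, c, d} : Finset _)
  · simp only [mem_insert, mem_singleton] at hx
    rcases hx with rfl | rfl | rfl | rfl <;> tauto
  · exact ⟨fun h => absurd (hs h) hx, fun h => absurd (ht h) hx⟩

theorem result : ∃ n m : ℕ, 1 ≤ m ∧ m ≤ n ∧ ∀ A : Finset (ZMod n), #A = m →
    ∃ B ⊆ A, AddDissociated (B : Set (ZMod n)) ∧ Nat.log 2 m < #B := by
  refine ⟨17, 14, by norm_num, by norm_num, fun A hA => ?_⟩
  have h : #Aᶜ = 3 := by rw [card_compl, hA]; rfl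
  obtain ⟨a, b, c, -, -, -, e⟩ := card_eq_three.1 h
  have k : ∀ a b c : ZMod 17, ∃ B ∈ [({1, 2, 4, 8} : Finset (ZMod 17)), {16, 15, 13, 9},
      {3, 6, 12, 7}, {14, 11, 5, 10}], a ∉ B ∧ b ∉ B ∧ c ∉ B := by decide +kernel
  obtain ⟨B, hB, k⟩ := k a b c
  refine ⟨B, fun x hx => by_contra fun h => ?_, ?_, ?_⟩
  · have := mem_compl.2 h
    rw [e] at this
    simp only [mem_insert, mem_singleton] at this
    rcases this with rfl | rfl | rfl <;> tauto
  · simp only [List.mem_cons, List.not_mem_nil, or_false] at hB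
    rcases hB with rfl | rfl | rfl | rfl <;> exact dis _ _ _ _ (by decide +kernel)
  · have : Nat.log 2 14 = 3 := by norm_num
    rw [this]
    simp only [List.mem_cons, List.not_mem_nil, or_false] at hB
    rcases hB with rfl | rfl | rfl | rfl <;> decide +kernel

end Pool.Agent.Results.MP_fd91d0_co.Dim
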